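import Pool.Agent.H59.PG.Stmts

/-!
# Parity games: row ATR, attractors
-/

set_option autoImplicit false

namespace Pool.PG.ATR

/-- the set `A` has an attractor strategy to `U` in `S` -/
def Good {V : Type} (own : V → Bool) (E : V → V → Prop) (i : Bool) (S U A : Finset V) : Prop :=
  U ⊆ A ∧ A ⊆ S ∧ ∃ (α : V → V) (ρ : V → ℕ),
    (∀ v ∈ A, v ∉ U → own v = i → α v ∈ A ∧ E v (α v) ∧ ρ (α v) < ρ v) ∧
    (∀ v ∈ A, v ∉ U → own v ≠ i → ∀ w ∈ S, E v w → w ∈ A ∧ ρ w < ρ v)

open Classical in
theorem extend {V : Type} (own : V → Bool) (E : V → V → Prop) (i : Bool) (S U A : Finset V)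
    (h : Good own E i S U A) (v : V) (hvS : v ∈ S) (hvA : v ∉ A)
    (hv : (own v = i ∧ ∃ w ∈ A, E v w) ∨ (own v ≠ i ∧ ∀ w ∈ S, E v w → w ∈ A)) :
    Good own E i S U (insert v A) := by
  obtain ⟨hU, hS, α, ρ, h1, h2⟩ := h
  refine ⟨fun u hu => Finset.mem_insert_of_mem (hU hu), ?_, ?_⟩
  · intro u hu
    rcases Finset.mem_insert.1 hu with rfl | hu
    · exact hvS
    · exact hS hu
  have hsup : ∀ w ∈ A, ρ w < A.sup ρ + 1 := fun w hw => Nat.lt_succ_of_le (Finset.le_sup hw)
  rcases hv with ⟨hi, w, hwA, hE⟩ | ⟨hi, hall⟩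
  · refine ⟨Function.update α v w, Function.update ρ v (A.sup ρ + 1), ?_, ?_⟩
    · intro u hu huU hui
      by_cases huv : u = v
      · subst huv
        have hwu : w ≠ u := fun e => hvA (e ▸ hwA)
        rw [Function.update_self, Function.update_self, Function.update_of_ne hwu]
        exact ⟨Finset.mem_insert_of_mem hwA, hE, hsup w hwA⟩
      · have huA : u ∈ A := by
          rcases Finset.mem_insert.1 hu with e | e
          · exact absurd e huv
          · exact e
        obtain ⟨a1, a2, a3⟩ := h1 u huA huU hui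
        have hne : α u ≠ v := fun e => hvA (e ▸ a1)
        rw [Function.update_of_ne huv, Function.update_of_ne huv, Function.update_of_ne hne]
        exact ⟨Finset.mem_insert_of_mem a1, a2, a3⟩
    · intro u hu huU hui x hx hEx
      have huv : u ≠ v := by
        rintro rfl
        exact hui hi
      have huA : u ∈ A := by
        rcases Finset.mem_insert.1 hu with e | e
        · exact absurd e huv
        · exact e
      obtain ⟨a1, a2⟩ := h2 u huA huU hui x hx hEx
      have hne : x ≠ v := fun e => hvA (e ▸ a1)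
      rw [Function.update_of_ne huv, Function.update_of_ne hne]
      exact ⟨Finset.mem_insert_of_mem a1, a2⟩
  · refine ⟨α, Function.update ρ v (A.sup ρ + 1), ?_, ?_⟩
    · intro u hu huU hui
      have huv : u ≠ v := by
        rintro rfl
        exact hi hui
      have huA : u ∈ A := by
        rcases Finset.mem_insert.1 hu with e | e
        · exact absurd e huv
        · exact e
      obtain ⟨a1, a2, a3⟩ := h1 u huA huU hui
      have hne : α u ≠ v := fun e => hvA (e ▸ a1)
      rw [Function.update_of_ne huv, Function.update_of_ne hne]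
      exact ⟨Finset.mem_insert_of_mem a1, a2, a3⟩
    · intro u hu huU hui x hx hEx
      by_cases huv : u = v
      · subst huv
        have hxA := hall x hx hEx
        have hne : x ≠ u := fun e => hvA (e ▸ hxA)
        rw [Function.update_self, Function.update_of_ne hne]
        exact ⟨Finset.mem_insert_of_mem hxA, hsup x hxA⟩
      · have huA : u ∈ A := by
          rcases Finset.mem_insert.1 hu with e | e
          · exact absurd e huv
          · exact e
        obtain ⟨a1, a2⟩ := h2 u huA huU hui x hx hEx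
        have hne : x ≠ v := fun e => hvA (e ▸ a1)
        rw [Function.update_of_ne huv, Function.update_of_ne hne]
        exact ⟨Finset.mem_insert_of_mem a1, a2⟩

end Pool.PG.ATR

namespace Pool.PG

open Pool.PG.ATR in
theorem atr_row : ATRStmt := by
  classical
  intro V own E i S U hUS _
  have h0 : Good own E i S U U :=
    ⟨Finset.Subset.refl U, hUS, id, fun _ => 0, fun v hv hvU => absurd hv hvU,
      fun v hv hvU => absurd hv hvU⟩
  obtain ⟨A, hA, hmax⟩ := Finset.exists_max_image
    (S.powerset.filter fun A => Good own E i S U A) Finset.card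
    ⟨U, Finset.mem_filter.2 ⟨Finset.mem_powerset.2 hUS, h0⟩⟩
  have hG : Good own E i S U A := (Finset.mem_filter.1 hA).2
  have key : ∀ v ∈ S, v ∉ A →
      ¬ ((own v = i ∧ ∃ w ∈ A, E v w) ∨ (own v ≠ i ∧ ∀ w ∈ S, E v w → w ∈ A)) := by
    intro v hvS hvA hv
    have h1 := extend own E i S U A hG v hvS hvA hv
    have h2 := hmax (insert v A) (Finset.mem_filter.2 ⟨Finset.mem_powerset.2 h1.2.1, h1⟩)
    rw [Finset.card_insert_of_notMem hvA] at h2
    omega
  obtain ⟨hU, hS, α, ρ, h1, h2⟩ := hG
  refine ⟨A, α, ρ, hU, hS, h1, h2, ?_, ?_⟩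
  · intro v hvS hvA hi w _ hE hwA
    exact key v hvS hvA (Or.inl ⟨hi, w, hwA, hE⟩)
  · intro v hvS hvA hi
    by_contra hcon
    apply key v hvS hvA
    refine Or.inr ⟨hi, fun w hw hE => ?_⟩
    by_contra hwA
    exact hcon ⟨w, hw, hwA, hE⟩

end Pool.PG
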